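import Mathlib
import Pool.Agent.Helper35.PI.St2

/-!
Project PI (MP_b2fa09_gt), module G1: symmetry and normality of the 2- and 3-jet.
-/

namespace Helper36.PI

open Helper35.PI
open scoped ContDiff Topology
open Filter

variable {n N : ℕ}

lemma cd_jg {V : Type*} [NormedAddCommGroup V] [NormedSpace ℝ V] {φ : EE n × ℝ → V}
    {z : EE n × ℝ} {a b : WithTop ℕ∞} (h : ContDiffAt ℝ a φ z) (hab : b + 1 ≤ a) (k : Fin n) :
    ContDiffAt ℝ b (fun z => jg φ z k) z := by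
  unfold jg
  exact (h.fderiv_right hab).clm_apply contDiffAt_const

lemma jgg_eq {V : Type*} [NormedAddCommGroup V] [NormedSpace ℝ V] {φ : EE n × ℝ → V}
    {z : EE n × ℝ} (h : ContDiffAt ℝ 2 φ z) (i j : Fin n) :
    jgg φ z i j = fderiv ℝ (fderiv ℝ φ) z (ee i, 0) (ee j, 0) := by
  have hd : DifferentiableAt ℝ (fderiv ℝ φ) z :=
    (h.fderiv_right (m := 1) (by norm_num)).differentiableAt (by norm_num)
  unfold jgg jg
  rw [fderiv_clm_apply hd (differentiableAt_const _)]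
  simp

lemma jgg_symm {V : Type*} [NormedAddCommGroup V] [NormedSpace ℝ V] {φ : EE n × ℝ → V}
    {z : EE n × ℝ} (h : ContDiffAt ℝ 2 φ z) (i j : Fin n) : jgg φ z i j = jgg φ z j i := by
  rw [jgg_eq h, jgg_eq h]
  exact (h.isSymmSndFDerivAt (by simp)).eq _ _

lemma jg_perp {φ : EE n × ℝ → EE N} {z : EE n × ℝ} (L : EE n →ₗᵢ[ℝ] EE N)
    (h : DifferentiableAt ℝ φ z) (hp : ∀ᶠ w in 𝓝 z, ∀ v : EE n, inner ℝ (φ w) (L v) = (0 : ℝ))
    (k : Fin n) (v : EE n) : (inner ℝ (jg φ z k) (L v) : ℝ) = 0 := by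
  have h1 : (fun w => (inner ℝ (φ w) (L v) : ℝ)) =ᶠ[𝓝 z] fun _ => 0 :=
    hp.mono fun w hw => hw v
  have h2 : fderiv ℝ (fun w => (inner ℝ (φ w) (L v) : ℝ)) z (ee k, 0) = 0 := by
    rw [h1.fderiv_eq]; simp
  rw [fderiv_inner_apply ℝ h (differentiableAt_const _)] at h2
  simpa [jg] using h2

lemma jg_perp_ev {φ : EE n × ℝ → EE N} {z : EE n × ℝ} (L : EE n →ₗᵢ[ℝ] EE N)
    (h : ∀ᶠ w in 𝓝 z, DifferentiableAt ℝ φ w)
    (hp : ∀ᶠ w in 𝓝 z, ∀ v : EE n, inner ℝ (φ w) (L v) = (0 : ℝ)) (k : Fin n) :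
    ∀ᶠ w in 𝓝 z, ∀ v : EE n, inner ℝ (jg φ w k) (L v) = (0 : ℝ) := by
  filter_upwards [h, hp.eventually_nhds] with w h1 h2 v
  exact jg_perp L h1 h2 k v

theorem hG1 : StG1 := by
  intro n N x₀ L u t₀ hg
  have hs3 : ContDiffAt ℝ 3 u (0, t₀) := hg.smooth.of_le
    (WithTop.coe_le_coe.2 (le_top : (3 : ℕ∞) ≤ ⊤))
  have hev : ∀ᶠ z in 𝓝 ((0 : EE n), t₀), ContDiffAt ℝ 3 u z :=
    hs3.eventually (by decide)
  have h2 : ∀ᶠ z in 𝓝 ((0 : EE n), t₀), ContDiffAt ℝ 2 u z :=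
    hev.mono fun z hz => hz.of_le (by norm_num)
  have h21 : (2 : WithTop ℕ∞) + 1 ≤ 3 := by norm_num
  have h11 : (1 : WithTop ℕ∞) + 1 ≤ 2 := by norm_num
  have hd0 : ∀ᶠ z in 𝓝 ((0 : EE n), t₀), DifferentiableAt ℝ u z :=
    hev.mono fun z hz => hz.differentiableAt (by norm_num)
  have hd1 : ∀ k, ∀ᶠ z in 𝓝 ((0 : EE n), t₀), DifferentiableAt ℝ (fun z => jg u z k) z :=
    fun k => hev.mono fun z hz => (cd_jg hz h21 k).differentiableAt (by norm_num)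
  have hd2 : ∀ j k, DifferentiableAt ℝ (fun z => jgg u z j k) ((0 : EE n), t₀) := fun j k =>
    (cd_jg (cd_jg hs3 h21 k) h11 j).differentiableAt (by norm_num)
  have p1 : ∀ k, ∀ᶠ z in 𝓝 ((0 : EE n), t₀), ∀ v : EE n,
      inner ℝ (jg u z k) (L v) = (0 : ℝ) := fun k => jg_perp_ev L hd0 hg.perp k
  have p2 : ∀ j k, ∀ᶠ z in 𝓝 ((0 : EE n), t₀), ∀ v : EE n,
      inner ℝ (jgg u z j k) (L v) = (0 : ℝ) := fun j k => jg_perp_ev L (hd1 k) (p1 k) j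
  refine ⟨fun i j => jgg_symm (hs3.of_le (by norm_num)) i j, ⟨?_, ?_⟩, ?_, ?_⟩
  · intro i j k
    exact jgg_symm (cd_jg hs3 h21 k) i j
  · intro i j k
    show jg (fun z' => jgg u z' j k) (0, t₀) i = jg (fun z' => jgg u z' k j) (0, t₀) i
    have : (fun z' => jgg u z' j k) =ᶠ[𝓝 ((0 : EE n), t₀)] fun z' => jgg u z' k j :=
      h2.mono fun z hz => jgg_symm hz j k
    unfold jg
    rw [this.fderiv_eq]
  · intro i j v
    exact (p2 i j).self_of_nhds v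
  · intro i j k v
    exact jg_perp L (hd2 j k) (p2 j k) i v

end Helper36.PI
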