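import Mathlib
import Pool.Agent.Helper35.PI.St1

/-!
Project PI (MP_b2fa09_gt), module KI: the key inequality.
-/

namespace Helper36.PI

open Helper35.PI
open scoped BigOperators

variable {n N : ℕ}

lemma young (m : Fin n → Fin n → ℝ) (B : Fin n → Fin n → EE N)
    (τ : Fin n → Fin n → Fin n → ℝ) (θ : Fin n → Fin n → Fin n → EE N) (j : Fin n) (t : ℝ) :
    2 * t * (gsv m B τ θ j + grv m B τ θ j) ≤ t ^ 2 * (Helper35.PI.sq m + rq B)
      + ((∑ i, ∑ l, Vt m τ j i l ^ 2) + ∑ i, ∑ l, ‖Ut B τ θ j i l‖ ^ 2) := by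
  have h1 : 2 * t * (gsv m B τ θ j + grv m B τ θ j) =
      ∑ i, ∑ l, 2 * t * (m i l * Vt m τ j i l + inner ℝ (B i l) (Ut B τ θ j i l)) := by
    unfold gsv grv
    simp only [← Finset.mul_sum, Finset.sum_add_distrib]
    ring
  have h2 : t ^ 2 * (Helper35.PI.sq m + rq B)
      + ((∑ i, ∑ l, Vt m τ j i l ^ 2) + ∑ i, ∑ l, ‖Ut B τ θ j i l‖ ^ 2) =
      ∑ i, ∑ l, (t ^ 2 * (m i l ^ 2 + ‖B i l‖ ^ 2)
        + (Vt m τ j i l ^ 2 + ‖Ut B τ θ j i l‖ ^ 2)) := by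
    unfold Helper35.PI.sq rq
    simp only [Finset.sum_add_distrib, ← Finset.mul_sum]
  rw [h1, h2]
  refine Finset.sum_le_sum fun i _ => Finset.sum_le_sum fun l _ => ?_
  have h3 : 0 ≤ ‖t • B i l - Ut B τ θ j i l‖ ^ 2 := sq_nonneg _
  rw [norm_sub_sq_real, norm_smul, real_inner_smul_left, mul_pow, Real.norm_eq_abs, sq_abs] at h3
  nlinarith [sq_nonneg (t * m i l - Vt m τ j i l)]

lemma heat_id (l chi2 : ℝ) (m : Fin n → Fin n → ℝ) (B : Fin n → Fin n → EE N)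
    (τ : Fin n → Fin n → Fin n → ℝ) (θ : Fin n → Fin n → Fin n → EE N) :
    hrv chi2 m B τ θ + l * hsv chi2 m B τ θ =
      -2 * Gq l m B τ θ
        - 2 * chi2 * (rq B * (Helper35.PI.sq m + 1 / n) - (1 + l) * Qc m B
          - 2 * l * Pq m B - Sq B)
        + 4 * ∑ j, yv τ j * (grv m B τ θ j + l * gsv m B τ θ j) := by
  have h1 : ∑ j, yv τ j * (grv m B τ θ j + l * gsv m B τ θ j)
      = ∑ j, yv τ j * grv m B τ θ j + l * ∑ j, yv τ j * gsv m B τ θ j := by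
    rw [Finset.mul_sum, ← Finset.sum_add_distrib]
    exact Finset.sum_congr rfl fun j _ => by ring
  rw [h1]
  unfold hrv hsv Gq
  ring

lemma quad (a b : ℝ) :
    (2 * a + b) ^ 2 / 8 - 2 * (a * (2 * a + b)) + 2 * a ^ 2 ≤ 3 * b ^ 2 := by
  nlinarith [sq_nonneg (a + b / 2), sq_nonneg b]

lemma core {n : ℕ} (nn k κ κ₁ K ε δ s r l U V W G R chi2 Hr Hs Hl : ℝ)
    (gr gs y z T : Fin n → ℝ) (hκ : κ₁ < κ) (hκ1 : κ ≤ 1) (hK : 0 ≤ K) (hε : 0 < ε) (hδ : 0 < δ)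
    (hk8 : 8 * (K / 2 + 1 + 2 / ((κ - κ₁) ^ 2 * ε)) ≤ k) (hk1 : 1 ≤ k) (hkδ : 5 ≤ 2 * k * δ)
    (hchi : 0 < chi2) (hs0 : 0 ≤ s) (hr : 0 < r) (hsr : s + r ≤ κ₁) (hl : l = r / (κ - s))
    (hU0 : 0 ≤ U) (hV0 : 0 ≤ V) (hW0 : 0 ≤ W) (hnn : nn ≤ 1)
    (hA1 : ε * (U + l * V) ≤ G + K / r * ∑ j, (gr j + l * gs j) ^ 2)
    (hA2 : δ * r ≤ R)
    (hheat : Hr + l * Hs = -2 * G - 2 * chi2 * R + 4 * ∑ j, y j * (gr j + l * gs j))
    (hHl : Hl = 2 * chi2 * (nn + s) - 2 * W + 2 * ∑ j, y j ^ 2)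
    (hcon : ∀ j, k * (2 * gr j / r + 2 * (gs j + gr j) / (κ - s - r)) + 2 * y j + z j = 0)
    (hyg : ∀ j t, 2 * t * (gs j + gr j) ≤ t ^ 2 * (s + r) + T j) (hT : ∑ j, T j = V + U) :
    k * (Hr / r + (∑ j, (2 * gr j) ^ 2) / r ^ 2 + (Hs + Hr) / (κ - s - r)
          - (∑ j, (2 * (gs j + gr j)) ^ 2) / (κ - s - r) ^ 2) + Hl
      ≤ - chi2 + 3 * ∑ j, z j ^ 2 := by
  have hk0 : (0 : ℝ) < k := by linarith
  obtain ⟨γ₀, hγ₀⟩ : ∃ γ₀, γ₀ = κ - κ₁ := ⟨_, rfl⟩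
  rw [← hγ₀] at hk8
  have hγ₀pos : 0 < γ₀ := by rw [hγ₀]; linarith
  have hκs : 0 < κ - s := by linarith
  obtain ⟨γ, hγ⟩ : ∃ γ, γ = κ - s - r := ⟨_, rfl⟩
  rw [← hγ] at hcon ⊢
  have hγ0 : γ₀ ≤ γ := by rw [hγ₀, hγ]; linarith
  have hγpos : 0 < γ := lt_of_lt_of_le hγ₀pos hγ0
  have hγ1 : γ ≤ 1 := by rw [hγ]; linarith
  have hκsγ : κ - s = γ + r := by rw [hγ]; ring
  rw [hκsγ] at hl hκs
  have hl0 : 0 < l := by rw [hl]; exact div_pos hr hκs
  have h1l : 1 - l = γ / (γ + r) := by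
    rw [hl]; field_simp; ring
  have hl1 : 0 < 1 - l := by rw [h1l]; exact div_pos hγpos hκs
  have hr1 : r ≤ 1 := by linarith
  -- the coefficient `q = 1/(r(1-l))`
  obtain ⟨q, hq⟩ : ∃ q, q = 1 / (r * (1 - l)) := ⟨_, rfl⟩
  have hrl : 0 < r * (1 - l) := mul_pos hr hl1
  have hq0 : 0 < q := by rw [hq]; exact one_div_pos.mpr hrl
  have hrl1 : r * (1 - l) ≤ 1 := by
    have f1 : r * (1 - l) ≤ r * 1 := mul_le_mul_of_nonneg_left (by linarith) hr.le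
    linarith
  have hq1 : 1 ≤ q := by
    rw [hq, le_div_iff₀ hrl]; linarith
  have hq2 : q = (γ + r) / (r * γ) := by
    rw [hq, h1l]; field_simp
  have hql' : q * l = 1 / γ := by
    rw [hq2, hl]; field_simp
  have hql : 1 ≤ q * l := by
    rw [hql', le_div_iff₀ hγpos]; linarith
  -- constraint
  obtain ⟨p, hp⟩ : ∃ p : Fin n → ℝ, ∀ j, p j = 2 * y j + z j := ⟨_, fun _ => rfl⟩
  obtain ⟨x, hx⟩ : ∃ x : Fin n → ℝ, ∀ j, x j = gs j + gr j := ⟨_, fun _ => rfl⟩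
  obtain ⟨g, hg⟩ : ∃ g : Fin n → ℝ, ∀ j, g j = gr j + l * gs j := ⟨_, fun _ => rfl⟩
  simp only [← hx] at hcon hyg ⊢
  simp only [← hg] at hA1 hheat
  have hgq : ∀ j, 2 * q * g j = 2 * gr j / r + 2 * x j / γ := by
    intro j
    rw [hg, hx, hq2, hl]
    field_simp
    ring
  have hcon1 : ∀ j, k * (2 * q * g j) = - p j := by
    intro j
    rw [hgq j, hp j]
    have := hcon j
    linarith
  have hcon2 : ∀ j, k * (2 * gr j / r + 2 * x j / γ) = - p j := by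
    intro j
    rw [← hgq j]; exact hcon1 j
  -- sums
  obtain ⟨PP, hPP⟩ : ∃ PP, PP = ∑ j, p j ^ 2 := ⟨_, rfl⟩
  have hPP0 : 0 ≤ PP := by rw [hPP]; exact Finset.sum_nonneg fun j _ => sq_nonneg _
  have hsum1 : ∀ j, k * (4 * q * (y j * g j)) = -2 * (y j * p j) := by
    intro j
    have := hcon1 j
    linear_combination (2 * y j) * this
  have hsum2 : ∀ j, k * ((2 * gr j) ^ 2 / r ^ 2 - (2 * x j) ^ 2 / γ ^ 2)
      = p j ^ 2 / k + 4 * p j * x j / γ := by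
    intro j
    have hc := hcon2 j
    have e1 : (2 * gr j) ^ 2 / r ^ 2 - (2 * x j) ^ 2 / γ ^ 2
        = (2 * gr j / r + 2 * x j / γ)
          * ((2 * gr j / r + 2 * x j / γ) - 4 * x j / γ) := by
      field_simp
      ring
    have e2 : 2 * gr j / r + 2 * x j / γ = - p j / k := by
      rw [eq_div_iff hk0.ne']
      linarith
    rw [e1, e2]
    field_simp
    ring
  -- Young
  have hyoung : ∀ j, 4 * p j * x j / γ ≤ 2 / (γ₀ ^ 2 * ε) * p j ^ 2 / k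
      + 2 * k * ε * T j := by
    intro j
    have hy := hyg j (p j / (γ * k * ε))
    have e1 : 4 * p j * x j / γ = (2 * k * ε) * (2 * (p j / (γ * k * ε)) * x j) := by
      field_simp
      ring
    have e2 : (2 * k * ε) * ((p j / (γ * k * ε)) ^ 2 * 1) ≤ 2 / (γ₀ ^ 2 * ε) * p j ^ 2 / k := by
      have e20 : (2 * k * ε) * ((p j / (γ * k * ε)) ^ 2 * 1) = 2 / (γ ^ 2 * ε) * p j ^ 2 / k := by
        field_simp
      rw [e20]
      have e21 : 2 / (γ ^ 2 * ε) ≤ 2 / (γ₀ ^ 2 * ε) := by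
        gcongr
      gcongr
    have e3 : (p j / (γ * k * ε)) ^ 2 * (s + r) ≤ (p j / (γ * k * ε)) ^ 2 * 1 := by
      have : s + r ≤ 1 := by linarith
      exact mul_le_mul_of_nonneg_left this (sq_nonneg _)
    rw [e1]
    have e4 : 2 * (p j / (γ * k * ε)) * x j ≤ (p j / (γ * k * ε)) ^ 2 * 1 + T j := by
      linarith
    have hke : 0 < 2 * k * ε := by positivity
    have e5 := mul_le_mul_of_nonneg_left e4 hke.le
    linarith
  have hyoungS : ∑ j, 4 * p j * x j / γ ≤ 2 / (γ₀ ^ 2 * ε) * PP / k + 2 * k * ε * (V + U) := by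
    refine (Finset.sum_le_sum fun j _ => hyoung j).trans (le_of_eq ?_)
    rw [Finset.sum_add_distrib, ← Finset.mul_sum, hT, hPP, ← Finset.sum_div, ← Finset.mul_sum]
  -- penalty
  have hpen : (2 * k * q) * (K / r * ∑ j, g j ^ 2) ≤ K / 2 * PP / k := by
    have e0 : ∀ j, g j = - (r * (1 - l)) * p j / (2 * k) := by
      intro j
      have h := hcon1 j
      rw [hq] at h
      rw [eq_div_iff (by positivity)]
      have h' : k * (2 * (1 / (r * (1 - l))) * g j) * (r * (1 - l)) = 2 * k * g j := by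
        field_simp
      rw [h] at h'
      linarith
    have e1 : ∑ j, g j ^ 2 = (r * (1 - l)) ^ 2 / (4 * k ^ 2) * PP := by
      rw [hPP, Finset.mul_sum]
      refine Finset.sum_congr rfl fun j _ => ?_
      rw [e0 j]
      field_simp
      ring
    rw [e1]
    have e2 : (2 * k * q) * (K / r * ((r * (1 - l)) ^ 2 / (4 * k ^ 2) * PP))
        = (1 - l) * (K / 2 * PP / k) := by
      rw [hq]; field_simp; ring
    rw [e2]
    have e3 : 0 ≤ K / 2 * PP / k := by positivity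
    have e4 : 1 - l ≤ 1 := by linarith
    have e5 := mul_le_mul_of_nonneg_right e4 e3
    linarith
  have hgrad : 2 * k * ε * (V + U) ≤ (2 * k * q) * G + K / 2 * PP / k := by
    have e1 : (2 * k * q) * (ε * (U + l * V)) ≤ (2 * k * q) * (G + K / r * ∑ j, g j ^ 2) :=
      mul_le_mul_of_nonneg_left hA1 (by positivity)
    have e2 : 2 * k * ε * (V + U) ≤ (2 * k * q) * (ε * (U + l * V)) := by
      have e3 : (2 * k * q) * (ε * (U + l * V)) = 2 * k * ε * ((q * l) * V + q * U) := by ring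
      rw [e3]
      have e4 : V + U ≤ (q * l) * V + q * U := by
        have f1 := mul_le_mul_of_nonneg_right hql hV0
        have f2 := mul_le_mul_of_nonneg_right hq1 hU0
        linarith
      exact mul_le_mul_of_nonneg_left e4 (by positivity)
    linarith
  have hreac : 2 * k * δ * chi2 ≤ (2 * k * q) * (chi2 * R) := by
    have e1 : (2 * k * q) * (chi2 * (δ * r)) ≤ (2 * k * q) * (chi2 * R) := by
      have := mul_le_mul_of_nonneg_left hA2 hchi.le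
      exact mul_le_mul_of_nonneg_left this (by positivity)
    have e2 : 1 ≤ q * r := by
      have : q * r = 1 / (1 - l) := by rw [hq]; field_simp
      rw [this, le_div_iff₀ hl1]; linarith
    have e3 : (2 * k * q) * (chi2 * (δ * r)) = (2 * k * δ * chi2) * (q * r) := by ring
    have e4 : 0 ≤ 2 * k * δ * chi2 := by positivity
    have e5 := mul_le_mul_of_nonneg_left e2 e4
    linarith
  -- total
  have htot : k * (Hr / r + (∑ j, (2 * gr j) ^ 2) / r ^ 2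
          + (Hs + Hr) / γ - (∑ j, (2 * x j) ^ 2) / γ ^ 2)
      = -(2 * k * q) * G - (2 * k * q) * (chi2 * R) - 2 * ∑ j, y j * p j
        + PP / k + ∑ j, 4 * p j * x j / γ := by
    have e1 : Hr / r + (Hs + Hr) / γ = q * (Hr + l * Hs) := by
      have e10 : q * (Hr + l * Hs) = q * Hr + (q * l) * Hs := by ring
      rw [e10, hql', hq2]
      field_simp
      ring
    have e2 : k * ((∑ j, (2 * gr j) ^ 2) / r ^ 2 - (∑ j, (2 * x j) ^ 2) / γ ^ 2)
        = PP / k + ∑ j, 4 * p j * x j / γ := by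
      rw [hPP, Finset.sum_div, Finset.sum_div, Finset.sum_div, ← Finset.sum_sub_distrib,
        Finset.mul_sum, ← Finset.sum_add_distrib]
      exact Finset.sum_congr rfl fun j _ => hsum2 j
    have e3 : k * (q * (4 * ∑ j, y j * g j)) = - 2 * ∑ j, y j * p j := by
      rw [Finset.mul_sum, Finset.mul_sum, Finset.mul_sum, Finset.mul_sum]
      refine Finset.sum_congr rfl fun j _ => ?_
      have := hsum1 j
      linarith
    have e4 : k * (Hr / r + (∑ j, (2 * gr j) ^ 2) / r ^ 2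
          + (Hs + Hr) / γ - (∑ j, (2 * x j) ^ 2) / γ ^ 2)
        = k * (Hr / r + (Hs + Hr) / γ)
          + k * ((∑ j, (2 * gr j) ^ 2) / r ^ 2 - (∑ j, (2 * x j) ^ 2) / γ ^ 2) := by ring
    rw [e4, e1, e2, hheat]
    linear_combination e3
  rw [htot]
  -- the quadratic form in `y, z`
  have hquad : (K / 2 + 1 + 2 / (γ₀ ^ 2 * ε)) * PP / k - 2 * ∑ j, y j * p j + 2 * ∑ j, y j ^ 2
      ≤ 3 * ∑ j, z j ^ 2 := by
    have e1 : (K / 2 + 1 + 2 / (γ₀ ^ 2 * ε)) * PP / k ≤ PP / 8 := by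
      rw [div_le_div_iff₀ hk0 (by norm_num)]
      have f1 := mul_le_mul_of_nonneg_right hk8 hPP0
      linarith
    have e2 : PP / 8 - 2 * ∑ j, y j * p j + 2 * ∑ j, y j ^ 2 ≤ 3 * ∑ j, z j ^ 2 := by
      rw [hPP, Finset.sum_div, Finset.mul_sum, Finset.mul_sum, Finset.mul_sum,
        ← Finset.sum_sub_distrib, ← Finset.sum_add_distrib]
      refine Finset.sum_le_sum fun j _ => ?_
      rw [hp]
      exact quad _ _
    linarith
  have hCk : (K / 2 + 1 + 2 / (γ₀ ^ 2 * ε)) * PP / k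
      = K / 2 * PP / k + PP / k + 2 / (γ₀ ^ 2 * ε) * PP / k := by
    ring
  have hc1 : 2 * chi2 * (nn + s) ≤ 4 * chi2 := by
    have f1 : nn + s ≤ 2 := by linarith
    have f2 := mul_le_mul_of_nonneg_left f1 hchi.le
    linarith
  have hc2 : 5 * chi2 ≤ 2 * k * δ * chi2 := mul_le_mul_of_nonneg_right hkδ hchi.le
  rw [hHl]
  linarith

lemma Vq_nonneg (m : Fin n → Fin n → ℝ) (τ : Fin n → Fin n → Fin n → ℝ) : 0 ≤ Vq m τ :=
  Finset.sum_nonneg fun _ _ => Finset.sum_nonneg fun _ _ => Finset.sum_nonneg fun _ _ =>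
    sq_nonneg _

lemma Uq_nonneg (B : Fin n → Fin n → EE N) (τ : Fin n → Fin n → Fin n → ℝ)
    (θ : Fin n → Fin n → Fin n → EE N) : 0 ≤ Uq B τ θ :=
  Finset.sum_nonneg fun _ _ => Finset.sum_nonneg fun _ _ => Finset.sum_nonneg fun _ _ =>
    sq_nonneg _

lemma wq_nonneg (θ : Fin n → Fin n → Fin n → EE N) : 0 ≤ wq θ :=
  Finset.sum_nonneg fun _ _ => sq_nonneg _

lemma sq_nonneg' (m : Fin n → Fin n → ℝ) : 0 ≤ Helper35.PI.sq m :=
  Finset.sum_nonneg fun _ _ => Finset.sum_nonneg fun _ _ => sq_nonneg _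

theorem hKI : StKI := by
  intro n N hn κ κ₁ K ε δ hκ hκ1 hK hε hδ h1 h2
  obtain ⟨k₀, hk₀⟩ := exists_nat_ge
    (8 * (K / 2 + 1 + 2 / ((κ - κ₁) ^ 2 * ε)) + 5 / (2 * δ) + 1)
  refine ⟨k₀, ?_⟩
  intro k hk chi2 m B τ θ z hchi hm1 hm2 hB1 hB2 hτ hθ hr hsr hcon
  have hkk := hk₀.trans (show (k₀ : ℝ) ≤ (k : ℝ) by exact_mod_cast hk)
  have h5 : 0 < 5 / (2 * δ) := by positivity
  have h6 : 0 ≤ 8 * (K / 2 + 1 + 2 / ((κ - κ₁) ^ 2 * ε)) := by positivity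
  have hkδ : 5 ≤ 2 * (k : ℝ) * δ := by
    have : 5 / (2 * δ) ≤ (k : ℝ) := by linarith
    rw [div_le_iff₀ (by positivity)] at this
    linarith
  have hnn : (1 : ℝ) / n ≤ 1 := by
    have hn1 : (1 : ℝ) ≤ n := by exact_mod_cast (by omega : 1 ≤ n)
    rw [div_le_iff₀ (by linarith)]; linarith
  refine core (1 / (n : ℝ)) (k : ℝ) κ κ₁ K ε δ (Helper35.PI.sq m) (rq B)
    (rq B / (κ - Helper35.PI.sq m)) (Uq B τ θ) (Vq m τ) (wq θ)
    (Gq (rq B / (κ - Helper35.PI.sq m)) m B τ θ) _ chi2 (hrv chi2 m B τ θ) (hsv chi2 m B τ θ)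
    (hlY chi2 m τ θ) (grv m B τ θ) (gsv m B τ θ) (yv τ) z
    (fun j => (∑ i, ∑ l, Vt m τ j i l ^ 2) + ∑ i, ∑ l, ‖Ut B τ θ j i l‖ ^ 2)
    hκ hκ1 hK hε hδ (by linarith) (by linarith) hkδ hchi (sq_nonneg' m) hr hsr rfl
    (Uq_nonneg B τ θ) (Vq_nonneg m τ) (wq_nonneg θ) hnn
    (h1 m B τ θ hm1 hm2 hB1 hB2 hτ hθ hr hsr _ rfl)
    (h2 m B hm1 hm2 hB1 hB2 hr hsr _ rfl)
    (heat_id _ chi2 m B τ θ) rfl hcon (fun j t => young m B τ θ j t) ?_
  rw [Finset.sum_add_distrib]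
  rfl

end Helper36.PI
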